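import Pool.Agent.H97.HV.Targets4

/-!
# Elementary embeddings of HOD(V_ ξ): module TR (transfer of absolute predicates)
-/

open Ordinal Cardinal Order Set
open scoped ZFSet

universe u

namespace HD.HW.H2

open HD.PRK HD.HV Pool.Agent.H54.WM

theorem ex_WV {γ ρ : Ordinal.{u}} (hg : IsSuccLimit (min γ ρ)) {w : ZFSet.{u}}
    (hw : w ∈ HW γ ρ) : ∃ y, WV γ ρ y ∧ w ∈ y := by
  refine ⟨{w, w}, ⟨nv_upair hg (mem_HW.1 hw).2 (mem_HW.1 hw).2, fun z hz => ?_⟩,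
    ZFSet.mem_pair.2 (Or.inl rfl)⟩
  rcases ZFSet.mem_pair.1 hz with rfl | rfl
  · exact (mem_HW.1 hw).1
  · exact (mem_HW.1 hw).1

/-- the formula which expresses the quantification over `V_ ρ` of the model -/
def psi (φ : Fml) : Fml :=
  .neg (.ex (.and (.ex (.mem 1 0)) (.ex (.and (.ex (.mem 1 0)) (.neg φ)))))

theorem key {γ ρ : Ordinal.{u}} (hg : IsSuccLimit (min γ ρ))
    {R : ZFSet.{u} → ZFSet.{u} → (ℕ → ZFSet.{u}) → Prop} {φ : Fml}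
    (hφ : ∀ M : ZFSet.{u} → Prop, (∀ x, M x → ∀ y ∈ x, M y) → ∀ v : ℕ → ZFSet.{u},
      (∀ n, M (v n)) → (R (v 1) (v 0) (fun n => v (n + 2)) ↔ Sat M φ v))
    {v : ℕ → ZFSet.{u}} (hv : ∀ n, WV γ ρ (v n)) :
    (∀ w ∈ HW γ ρ, ∀ w' ∈ HW γ ρ, R w w' v) ↔ Sat (WV γ ρ) (psi φ) v := by
  have hc : ∀ w w', WV γ ρ w → WV γ ρ w' → ∀ n, WV γ ρ (cons w' (cons w v) n) := by
    rintro w w' hw hw' (_ | _ | n)
    exacts [hw', hw, hv n]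
  have hR : ∀ w w', WV γ ρ w → WV γ ρ w' →
      (R w w' v ↔ Sat (WV γ ρ) φ (cons w' (cons w v))) :=
    fun w w' hw hw' => hφ (WV γ ρ) WV_tra (cons w' (cons w v)) (hc w w' hw hw')
  constructor
  · rintro h ⟨w, hw, ⟨y, hy, hwy⟩, w', hw', ⟨y', hy', hwy'⟩, hn⟩
    exact hn ((hR w w' hw hw').1 (h w (mem_HW_of_WV hy hwy) w' (mem_HW_of_WV hy' hwy')))
  · intro h w hw w' hw'
    by_contra hn
    obtain ⟨y, hy, hwy⟩ := ex_WV hg hw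
    obtain ⟨y', hy', hwy'⟩ := ex_WV hg hw'
    exact h ⟨w, WV_of_HW hw, ⟨y, hy, hwy⟩, w', WV_of_HW hw', ⟨y', hy', hwy'⟩,
      fun hs => hn ((hR w w' (WV_of_HW hw) (WV_of_HW hw')).2 hs)⟩

theorem pf_TR : HD.HW.T_TR.{u} := by
  intro γ ξ κ j h
  have tr : ∀ R : ZFSet.{u} → ZFSet.{u} → (ℕ → ZFSet.{u}) → Prop,
      (D0 fun v => R (v 0) (v 1) (fun n => v (n + 2))) → ∀ v, (∀ n, WV γ ξ (v n)) →
      ((∀ w ∈ HW γ ξ, ∀ w' ∈ HW γ ξ, R w w' v) ↔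
        ∀ w ∈ HW γ κ, ∀ w' ∈ HW γ κ, R w w' (j ∘ v)) := by
    intro R hR v hv
    have hR' : D0 fun v => R (v 1) (v 0) (fun n => v (n + 2)) :=
      hR.ren (fun n => if n = 0 then 1 else if n = 1 then 0 else n)
    obtain ⟨φ, hφ⟩ := hR'
    rw [key h.gξ hφ hv, key h.gκ hφ (v := j ∘ v) fun n => h.emb.map _ (hv n)]
    exact h.emb.elem _ v hv
  refine ⟨tr, ?_, ?_⟩
  · have hV : WV γ ξ (HW γ ξ) := WV_sub h.gξ
    have h1 := (tr (fun w _ v => w ∈ v 0) (D0.mem 0 2) (fun _ => HW γ ξ) fun _ => hV).1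
      fun w hw _ _ => hw
    ext z
    exact ⟨fun hz => mem_HW_of_WV (h.emb.map _ hV) hz, fun hz => h1 z hz z hz⟩
  · exact h.emb.fix ∅ (nv_empty h.gξ) (mem_HW.1 (empty_mem_HW h.gξ h.lξ)).1

end HD.HW.H2
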